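import Pool.Agent.Run7.h442.HD.Iface
import Pool.Agent.W465.BK.QB

/-!
# Project HD (helper442), piece FEJ: one and two energy shells in high dimension
-/

set_option autoImplicit false
set_option linter.unusedSectionVars false

open scoped BigOperators
open MeasureTheory

namespace Run7.h304.HD

open Pool.Agent.Run7.h47 (WJ prod_avg riem)
open Pool.Agent.W788.MFP.Four Pool.Agent.W788.BK
open Pool.Agent.W788.MFP.Form
open Run7.h108.GL (gz)
open Run7.h442.HD (Lo S_FEJ S_WJ)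
open Pool.Agent.W918.BK.Osc (U U_cont U_norm U_lip)
open Pool.Agent.W465.BK (Fe_nonneg Fe_one inv_sqrt_le)


/-! ### Sums of Gaussians -/

lemma exp_neg_le (x : ℝ) (hx : 0 < x) : Real.exp (-x) ≤ 1 / x := by
  rw [Real.exp_neg, ← one_div]
  apply one_div_le_one_div_of_le hx
  have := Real.add_one_le_exp x
  linarith

lemma gs_sum (κ : ℝ) (hκ : 0 < κ) (I : Finset ℕ) (t : ℝ) :
    ∑ i ∈ I, Real.exp (-(κ * (t - i) ^ 2)) ≤ 1 + 16 / κ := by
  classical
  set m : ℤ := round t with hm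
  have hmt : |t - m| ≤ 1 / 2 := abs_sub_round t
  have hterm : ∀ i : ℕ, (i : ℤ) ≠ m → Real.exp (-(κ * (t - i) ^ 2)) ≤
      4 / κ * (1 / ((|(i : ℤ) - m| : ℤ) : ℝ) ^ 2) := by
    intro i hi
    have h1 : (1 : ℝ) ≤ ((|(i : ℤ) - m| : ℤ) : ℝ) := by
      have : (1 : ℤ) ≤ |(i : ℤ) - m| := Int.one_le_abs (sub_ne_zero.2 hi)
      exact_mod_cast this
    have h2 : ((|(i : ℤ) - m| : ℤ) : ℝ) = |(i : ℝ) - m| := by push_cast; rfl
    have h3 : |(i : ℝ) - m| / 2 ≤ |t - i| := by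
      have h4 : |(i : ℝ) - m| ≤ |t - m| + |t - i| := by
        have : (i : ℝ) - m = (t - m) - (t - i) := by ring
        rw [this]
        exact abs_sub _ _
      have h5 : (1 : ℝ) ≤ |(i : ℝ) - m| := by rw [← h2]; exact h1
      linarith
    have h6 : κ / 4 * ((|(i : ℤ) - m| : ℤ) : ℝ) ^ 2 ≤ κ * (t - i) ^ 2 := by
      rw [h2]
      have h7 : (|(i : ℝ) - m| / 2) ^ 2 ≤ |t - i| ^ 2 := pow_le_pow_left₀ (by positivity) h3 2
      rw [sq_abs (t - i)] at h7
      nlinarith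
    have h8 : 0 < κ / 4 * ((|(i : ℤ) - m| : ℤ) : ℝ) ^ 2 := by positivity
    calc Real.exp (-(κ * (t - i) ^ 2)) ≤ Real.exp (-(κ / 4 * ((|(i : ℤ) - m| : ℤ) : ℝ) ^ 2)) := by
          apply Real.exp_le_exp.2
          linarith
      _ ≤ 1 / (κ / 4 * ((|(i : ℤ) - m| : ℤ) : ℝ) ^ 2) := exp_neg_le _ h8
      _ = _ := by field_simp
  have hsplit : ∑ i ∈ I, Real.exp (-(κ * (t - i) ^ 2)) =
      ∑ i ∈ I.filter (fun i : ℕ => (i : ℤ) = m), Real.exp (-(κ * (t - i) ^ 2)) +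
      (∑ i ∈ I.filter (fun i : ℕ => m < (i : ℤ)), Real.exp (-(κ * (t - i) ^ 2)) +
        ∑ i ∈ I.filter (fun i : ℕ => (i : ℤ) < m), Real.exp (-(κ * (t - i) ^ 2))) := by
    rw [Finset.sum_filter, Finset.sum_filter, Finset.sum_filter, ← Finset.sum_add_distrib,
      ← Finset.sum_add_distrib]
    apply Finset.sum_congr rfl
    intro i _
    rcases lt_trichotomy (i : ℤ) m with h | h | h
    · rw [if_neg h.ne, if_neg (by omega), if_pos h]; ring
    · rw [if_pos h, if_neg (by omega), if_neg (by omega)]; ring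
    · rw [if_neg h.ne', if_pos h, if_neg (by omega)]; ring
  have hA : ∑ i ∈ I.filter (fun i : ℕ => (i : ℤ) = m), Real.exp (-(κ * (t - i) ^ 2)) ≤ 1 := by
    have h1 : (I.filter (fun i : ℕ => (i : ℤ) = m)).card ≤ 1 := by
      rw [Finset.card_le_one]
      intro x hx y hy
      rw [Finset.mem_filter] at hx hy
      have := hx.2.trans hy.2.symm
      exact_mod_cast this
    calc ∑ i ∈ I.filter (fun i : ℕ => (i : ℤ) = m), Real.exp (-(κ * (t - i) ^ 2))
        ≤ ∑ _i ∈ I.filter (fun i : ℕ => (i : ℤ) = m), (1 : ℝ) := by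
          apply Finset.sum_le_sum
          intro i _
          rw [Real.exp_le_one_iff]
          nlinarith [mul_nonneg hκ.le (sq_nonneg (t - i))]
      _ = (I.filter (fun i : ℕ => (i : ℤ) = m)).card := by simp
      _ ≤ 1 := by exact_mod_cast h1
  have hsq : ∀ N : ℕ, ∑ n ∈ Finset.Ioc 0 N, ((n : ℝ) ^ 2)⁻¹ ≤ 2 := by
    intro N
    rcases Nat.eq_zero_or_pos N with h0 | h0
    · subst h0; simp
    have h1 := sum_Ioc_inv_sq_le_sub (α := ℝ) (k := 1) one_ne_zero (show 1 ≤ N from h0)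
    have h2 : Finset.Ioc 0 N = insert 1 (Finset.Ioc 1 N) := by
      ext n
      simp only [Finset.mem_Ioc, Finset.mem_insert]
      omega
    rw [h2, Finset.sum_insert (by simp)]
    have : (0 : ℝ) ≤ (N : ℝ)⁻¹ := by positivity
    norm_num at h1 ⊢
    linarith
  have himg : ∀ (S : Finset ℕ) (e : ℕ → ℕ), Set.InjOn e S → (∀ i ∈ S, 0 < e i) →
      ∑ i ∈ S, 4 / κ * (1 / ((e i : ℕ) : ℝ) ^ 2) ≤ 8 / κ := by
    intro S e he hpos
    have h1 : ∑ i ∈ S, 4 / κ * (1 / ((e i : ℕ) : ℝ) ^ 2) =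
        ∑ n ∈ S.image e, 4 / κ * (1 / (n : ℝ) ^ 2) := by
      rw [Finset.sum_image he]
    have h2 : S.image e ⊆ Finset.Ioc 0 ((S.image e).sup id) := by
      intro n hn
      rw [Finset.mem_Ioc]
      refine ⟨?_, Finset.le_sup (f := id) hn⟩
      rw [Finset.mem_image] at hn
      obtain ⟨i, hi, rfl⟩ := hn
      exact hpos i hi
    rw [h1]
    refine (Finset.sum_le_sum_of_subset_of_nonneg h2 (fun _ _ _ => by positivity)).trans ?_
    have h3 := hsq ((S.image e).sup id)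
    rw [← Finset.mul_sum]
    have h4 : ∑ n ∈ Finset.Ioc 0 ((S.image e).sup id), 1 / (n : ℝ) ^ 2 =
        ∑ n ∈ Finset.Ioc 0 ((S.image e).sup id), ((n : ℝ) ^ 2)⁻¹ := by
      apply Finset.sum_congr rfl
      intro n _
      rw [one_div]
    rw [h4]
    calc 4 / κ * ∑ n ∈ Finset.Ioc 0 ((S.image e).sup id), ((n : ℝ) ^ 2)⁻¹ ≤ 4 / κ * 2 := by gcongr
      _ = 8 / κ := by ring
  have hB : ∑ i ∈ I.filter (fun i : ℕ => m < (i : ℤ)), Real.exp (-(κ * (t - i) ^ 2)) ≤ 8 / κ := by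
    refine le_trans (Finset.sum_le_sum (fun i hi => ?_))
      (himg (I.filter (fun i : ℕ => m < (i : ℤ))) (fun i => ((i : ℤ) - m).toNat) ?_ ?_)
    · rw [Finset.mem_filter] at hi
      refine (hterm i (by omega)).trans (le_of_eq ?_)
      have h1 : ((|(i : ℤ) - m| : ℤ) : ℝ) = ((((i : ℤ) - m).toNat : ℕ) : ℝ) := by
        have : |(i : ℤ) - m| = ((((i : ℤ) - m).toNat : ℕ) : ℤ) := by
          rw [Int.toNat_of_nonneg (by omega), abs_of_pos (by omega)]
        rw [this]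
        exact Int.cast_natCast _
      rw [h1]
    · intro x hx y hy hxy
      rw [Finset.mem_coe, Finset.mem_filter] at hx hy
      simp only at hxy
      omega
    · intro i hi
      rw [Finset.mem_filter] at hi
      omega
  have hC : ∑ i ∈ I.filter (fun i : ℕ => (i : ℤ) < m), Real.exp (-(κ * (t - i) ^ 2)) ≤ 8 / κ := by
    refine le_trans (Finset.sum_le_sum (fun i hi => ?_))
      (himg (I.filter (fun i : ℕ => (i : ℤ) < m)) (fun i => (m - (i : ℤ)).toNat) ?_ ?_)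
    · rw [Finset.mem_filter] at hi
      refine (hterm i (by omega)).trans (le_of_eq ?_)
      have h1 : ((|(i : ℤ) - m| : ℤ) : ℝ) = (((m - (i : ℤ)).toNat : ℕ) : ℝ) := by
        have : |(i : ℤ) - m| = (((m - (i : ℤ)).toNat : ℕ) : ℤ) := by
          rw [Int.toNat_of_nonneg (by omega), abs_of_neg (by omega)]
          ring
        rw [this]
        exact Int.cast_natCast _
      rw [h1]
    · intro x hx y hy hxy
      rw [Finset.mem_coe, Finset.mem_filter] at hx hy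
      simp only at hxy
      omega
    · intro i hi
      rw [Finset.mem_filter] at hi
      omega
  rw [hsplit]
  have : (16 : ℝ) / κ = 8 / κ + 8 / κ := by ring
  linarith

lemma gs_sum2 (κ : ℝ) (hκ : 0 < κ) (M : ℕ) :
    ∑ i ∈ Finset.range M, ∑ j ∈ Finset.range M, Real.exp (-(κ * ((i : ℝ) - j) ^ 2)) ≤
      M * (1 + 16 / κ) := by
  refine (Finset.sum_le_sum (fun (i : ℕ) _ => gs_sum κ hκ (Finset.range M) (i : ℝ))).trans ?_
  rw [Finset.sum_const, Finset.card_range, nsmul_eq_mul]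

/-! ### Fejer kernels -/

lemma Fe_eq (M : ℕ) (x : ℝ) : (Fe M x : ℂ) = ((M : ℂ)⁻¹) ^ 2 *
    ∑ i ∈ Finset.range M, ∑ j ∈ Finset.range M,
      Complex.exp (Complex.I * ((((i : ℝ) - j) * x : ℝ) : ℂ)) := by
  unfold Fe
  rw [Complex.ofReal_pow, ← Complex.mul_conj']
  have h1 : (starRingEnd ℂ) ((M : ℂ)⁻¹ * ∑ j ∈ Finset.range M, Complex.exp (Complex.I * ((j * x : ℝ) : ℂ))) =
      (M : ℂ)⁻¹ * ∑ j ∈ Finset.range M, Complex.exp (-(Complex.I * ((j * x : ℝ) : ℂ))) := by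
    rw [map_mul, map_sum, map_inv₀, Complex.conj_natCast]
    congr 1
    apply Finset.sum_congr rfl
    intro j _
    rw [← Complex.exp_conj, map_mul, Complex.conj_I, Complex.conj_ofReal, neg_mul]
  rw [h1]
  have h2 : ∀ A B : ℂ, (M : ℂ)⁻¹ * A * ((M : ℂ)⁻¹ * B) = ((M : ℂ)⁻¹) ^ 2 * (A * B) := by
    intro A B
    ring
  rw [h2, Finset.sum_mul_sum]
  congr 1
  apply Finset.sum_congr rfl
  intro i _
  apply Finset.sum_congr rfl
  intro j _
  rw [← Complex.exp_add]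
  congr 1
  push_cast
  ring

/-- the mean of a product of two Fejer kernels, from the decay of the Fourier coefficients -/
lemma fe_fe {d L : ℕ} [NeZero L] (M M' : ℕ) (hM : 1 ≤ M) (hM' : 1 ≤ M') (κ η h E : ℝ) (hκ : 0 < κ)
    (P : T d L)
    (H : ∀ i j i' j' : ℕ, i < M → j < M → i' < M' → j' < M' →
      ‖(NN d L : ℂ)⁻¹ * ∑ k : T d L, Complex.exp (Complex.I *
        (((((i : ℝ) - j) * h) * adj k + (((i' : ℝ) - j') * h) * adj (k + P) : ℝ) : ℂ))‖ ≤
      Real.exp (-(κ * ((i : ℝ) - j) ^ 2)) * Real.exp (-(κ * ((i' : ℝ) - j') ^ 2)) + η) :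
    (NN d L)⁻¹ * ∑ k : T d L, Fe M (h * (adj k - E)) * Fe M' (h * (adj (k + P) - E)) ≤
      (1 + 16 / κ) ^ 2 / (M * M') + η := by
  have hM0 : (0 : ℝ) < M := by exact_mod_cast hM
  have hM0' : (0 : ℝ) < M' := by exact_mod_cast hM'
  have hNN : (0 : ℝ) < NN d L := NN_pos
  set m : ℝ := (NN d L)⁻¹ * ∑ k : T d L, Fe M (h * (adj k - E)) * Fe M' (h * (adj (k + P) - E)) with hm
  set G : ℕ → ℕ → ℕ → ℕ → ℂ := fun i j i' j' => (NN d L : ℂ)⁻¹ * ∑ k : T d L, Complex.exp (Complex.I *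
        (((((i : ℝ) - j) * h) * adj k + (((i' : ℝ) - j') * h) * adj (k + P) : ℝ) : ℂ)) with hG
  set ph : ℕ → ℕ → ℕ → ℕ → ℂ := fun i j i' j' => Complex.exp (Complex.I *
        ((-((((i : ℝ) - j) * h) * E + (((i' : ℝ) - j') * h) * E) : ℝ) : ℂ)) with hph
  have h1 : (m : ℂ) = ((M : ℂ)⁻¹) ^ 2 * ((M' : ℂ)⁻¹) ^ 2 *
      ∑ i ∈ Finset.range M, ∑ j ∈ Finset.range M, ∑ i' ∈ Finset.range M', ∑ j' ∈ Finset.range M',
        ph i j i' j' * G i j i' j' := by
    rw [hm]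
    push_cast
    have h2 : ∀ k : T d L, (Fe M (h * (adj k - E)) : ℂ) * (Fe M' (h * (adj (k + P) - E)) : ℂ) =
        ((M : ℂ)⁻¹) ^ 2 * ((M' : ℂ)⁻¹) ^ 2 *
      ∑ i ∈ Finset.range M, ∑ j ∈ Finset.range M, ∑ i' ∈ Finset.range M', ∑ j' ∈ Finset.range M',
        ph i j i' j' * Complex.exp (Complex.I *
        (((((i : ℝ) - j) * h) * adj k + (((i' : ℝ) - j') * h) * adj (k + P) : ℝ) : ℂ)) := by
      intro k
      rw [Fe_eq, Fe_eq]
      have h3 : ∀ A B : ℂ, ((M : ℂ)⁻¹) ^ 2 * A * (((M' : ℂ)⁻¹) ^ 2 * B) =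
          ((M : ℂ)⁻¹) ^ 2 * ((M' : ℂ)⁻¹) ^ 2 * (A * B) := by
        intro A B
        ring
      rw [h3]
      congr 1
      rw [Finset.sum_mul]
      apply Finset.sum_congr rfl
      intro i _
      rw [Finset.sum_mul]
      apply Finset.sum_congr rfl
      intro j _
      rw [Finset.mul_sum]
      apply Finset.sum_congr rfl
      intro i' _
      rw [Finset.mul_sum]
      apply Finset.sum_congr rfl
      intro j' _
      rw [hph]
      simp only
      rw [← Complex.exp_add, ← Complex.exp_add]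
      congr 1
      push_cast
      ring
    simp only [h2]
    rw [← Finset.mul_sum]
    have h4 : ∀ A B : ℂ, (NN d L : ℂ)⁻¹ * (A * B) = A * ((NN d L : ℂ)⁻¹ * B) := by
      intro A B
      ring
    rw [h4]
    congr 1
    rw [Finset.sum_comm, Finset.mul_sum]
    apply Finset.sum_congr rfl
    intro i _
    rw [Finset.sum_comm, Finset.mul_sum]
    apply Finset.sum_congr rfl
    intro j _
    rw [Finset.sum_comm, Finset.mul_sum]
    apply Finset.sum_congr rfl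
    intro i' _
    rw [Finset.sum_comm, Finset.mul_sum]
    apply Finset.sum_congr rfl
    intro j' _
    rw [hG]
    simp only
    rw [← Finset.mul_sum]
    ring
  have h5 : m ≤ ‖(m : ℂ)‖ := by
    rw [Complex.norm_real]
    exact le_abs_self m
  refine h5.trans ?_
  rw [h1, norm_mul, norm_mul, norm_pow, norm_pow, norm_inv, norm_inv, Complex.norm_natCast, Complex.norm_natCast]
  have h6 : ‖∑ i ∈ Finset.range M, ∑ j ∈ Finset.range M, ∑ i' ∈ Finset.range M', ∑ j' ∈ Finset.range M',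
        ph i j i' j' * G i j i' j'‖ ≤
      ∑ i ∈ Finset.range M, ∑ j ∈ Finset.range M, ∑ i' ∈ Finset.range M', ∑ j' ∈ Finset.range M',
        (Real.exp (-(κ * ((i : ℝ) - j) ^ 2)) * Real.exp (-(κ * ((i' : ℝ) - j') ^ 2)) + η) := by
    refine (norm_sum_le _ _).trans (Finset.sum_le_sum fun i hi => ?_)
    refine (norm_sum_le _ _).trans (Finset.sum_le_sum fun j hj => ?_)
    refine (norm_sum_le _ _).trans (Finset.sum_le_sum fun i' hi' => ?_)
    refine (norm_sum_le _ _).trans (Finset.sum_le_sum fun j' hj' => ?_)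
    rw [norm_mul]
    have h7 : ‖ph i j i' j'‖ = 1 := by
      rw [hph]
      simp only
      rw [mul_comm]
      exact Complex.norm_exp_ofReal_mul_I _
    rw [h7, one_mul]
    exact H i j i' j' (Finset.mem_range.1 hi) (Finset.mem_range.1 hj) (Finset.mem_range.1 hi')
      (Finset.mem_range.1 hj')
  have h8 : ∑ i ∈ Finset.range M, ∑ j ∈ Finset.range M, ∑ i' ∈ Finset.range M', ∑ j' ∈ Finset.range M',
        (Real.exp (-(κ * ((i : ℝ) - j) ^ 2)) * Real.exp (-(κ * ((i' : ℝ) - j') ^ 2)) + η) =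
      (∑ i ∈ Finset.range M, ∑ j ∈ Finset.range M, Real.exp (-(κ * ((i : ℝ) - j) ^ 2))) *
      (∑ i' ∈ Finset.range M', ∑ j' ∈ Finset.range M', Real.exp (-(κ * ((i' : ℝ) - j') ^ 2))) +
      (M : ℝ) ^ 2 * (M' : ℝ) ^ 2 * η := by
    simp only [Finset.sum_add_distrib, Finset.sum_const, Finset.card_range, nsmul_eq_mul]
    congr 1
    · rw [Finset.sum_mul]
      apply Finset.sum_congr rfl
      intro i _
      rw [Finset.sum_mul]
      apply Finset.sum_congr rfl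
      intro j _
      rw [Finset.mul_sum]
      apply Finset.sum_congr rfl
      intro i' _
      rw [Finset.mul_sum]
    · ring
  have h9 := gs_sum2 κ hκ M
  have h10 := gs_sum2 κ hκ M'
  have h11 : 0 ≤ ∑ i' ∈ Finset.range M', ∑ j' ∈ Finset.range M', Real.exp (-(κ * ((i' : ℝ) - j') ^ 2)) :=
    Finset.sum_nonneg fun _ _ => Finset.sum_nonneg fun _ _ => (Real.exp_pos _).le
  have h12 : 0 < 1 + 16 / κ := by positivity
  have h13 : (∑ i ∈ Finset.range M, ∑ j ∈ Finset.range M, Real.exp (-(κ * ((i : ℝ) - j) ^ 2))) *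
      (∑ i' ∈ Finset.range M', ∑ j' ∈ Finset.range M', Real.exp (-(κ * ((i' : ℝ) - j') ^ 2))) ≤
      (M * (1 + 16 / κ)) * (M' * (1 + 16 / κ)) := mul_le_mul h9 h10 h11 (by positivity)
  calc ((M : ℝ)⁻¹) ^ 2 * ((M' : ℝ)⁻¹) ^ 2 * ‖∑ i ∈ Finset.range M, ∑ j ∈ Finset.range M,
        ∑ i' ∈ Finset.range M', ∑ j' ∈ Finset.range M', ph i j i' j' * G i j i' j'‖
      ≤ ((M : ℝ)⁻¹) ^ 2 * ((M' : ℝ)⁻¹) ^ 2 *
        ((M * (1 + 16 / κ)) * (M' * (1 + 16 / κ)) + (M : ℝ) ^ 2 * (M' : ℝ) ^ 2 * η) := by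
        apply mul_le_mul_of_nonneg_left _ (by positivity)
        refine h6.trans ?_
        rw [h8]
        linarith
    _ = _ := by
        field_simp



/-! ### One coordinate -/

/-- the average over one coordinate -/
noncomputable def KL (L : ℕ) [NeZero L] (z : ℂ) : ℂ :=
  (L : ℂ)⁻¹ * ∑ q : ZMod L, Complex.exp (Complex.I * ((2 * (z * ZMod.stdAddChar q).re : ℝ) : ℂ))

lemma KL_le_one (L : ℕ) [NeZero L] (z : ℂ) : ‖KL L z‖ ≤ 1 := by
  unfold KL
  have hLR : (0 : ℝ) < L := by exact_mod_cast Nat.pos_of_ne_zero (NeZero.ne L)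
  rw [norm_mul, norm_inv, Complex.norm_natCast]
  have h1 : ‖∑ q : ZMod L, Complex.exp (Complex.I * ((2 * (z * ZMod.stdAddChar q).re : ℝ) : ℂ))‖ ≤ L := by
    refine (norm_sum_le _ _).trans ?_
    have : ∀ q : ZMod L, ‖Complex.exp (Complex.I * ((2 * (z * ZMod.stdAddChar q).re : ℝ) : ℂ))‖ = 1 :=
      fun q => by
        rw [mul_comm]
        exact Complex.norm_exp_ofReal_mul_I _
    simp only [this]
    simp [ZMod.card]
  calc (L : ℝ)⁻¹ * ‖∑ q : ZMod L, Complex.exp (Complex.I * ((2 * (z * ZMod.stdAddChar q).re : ℝ) : ℂ))‖ ≤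
      (L : ℝ)⁻¹ * L := by gcongr
    _ = 1 := by field_simp

lemma char_eq {L : ℕ} [NeZero L] (q : ZMod L) :
    (ZMod.stdAddChar q : ℂ) = Complex.exp (((2 * Real.pi * q.val / L : ℝ) : ℂ) * Complex.I) := by
  have h1 : ((q.val : ℤ) : ZMod L) = q := by
    rw [Int.cast_natCast, ZMod.natCast_zmod_val]
  conv_lhs => rw [← h1]
  rw [ZMod.stdAddChar_coe]
  congr 1
  push_cast
  ring

lemma char_norm {L : ℕ} [NeZero L] (q : ZMod L) : ‖(ZMod.stdAddChar q : ℂ)‖ = 1 := by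
  rw [char_eq]
  exact Complex.norm_exp_ofReal_mul_I _

lemma KL_term {L : ℕ} [NeZero L] (z : ℂ) (q : ZMod L) :
    Complex.exp (Complex.I * ((2 * (z * ZMod.stdAddChar q).re : ℝ) : ℂ)) =
      U ‖z‖ (2 * Real.pi * q.val / L + Complex.arg z) := by
  unfold U
  congr 3
  have h1 : z * (ZMod.stdAddChar q : ℂ) =
      (‖z‖ : ℂ) * Complex.exp (((2 * Real.pi * q.val / L + Complex.arg z : ℝ) : ℂ) * Complex.I) := by
    conv_lhs => rw [← Complex.norm_mul_exp_arg_mul_I z]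
    rw [char_eq, mul_assoc, ← Complex.exp_add]
    congr 2
    push_cast
    ring
  rw [h1, Complex.re_ofReal_mul, Complex.exp_ofReal_mul_I_re]

lemma U_shift (s θ : ℝ) :
    ∫ t in (0 : ℝ)..(2 * Real.pi), U s (t + θ) = ∫ t in (0 : ℝ)..(2 * Real.pi), U s t := by
  have hper : Function.Periodic (U s) (2 * Real.pi) := by
    intro t
    unfold U
    rw [Real.cos_add_two_pi]
  rw [intervalIntegral.integral_comp_add_right (fun t => U s t) θ]
  have := hper.intervalIntegral_add_eq θ 0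
  rw [zero_add] at this
  rw [zero_add, add_comm (2 * Real.pi) θ]
  exact this

lemma KL_bd (L : ℕ) [NeZero L] (z : ℂ) : ‖KL L z‖ ≤ ‖WJ ‖z‖‖ + 4 * Real.pi * ‖z‖ / L := by
  have h := riem (L := L) (fun t => U ‖z‖ (t + Complex.arg z)) (2 * |‖z‖|)
    ((U_cont ‖z‖).comp (by fun_prop)) (fun x y => by
      have := U_lip ‖z‖ (x + Complex.arg z) (y + Complex.arg z)
      have e : x + Complex.arg z - (y + Complex.arg z) = x - y := by ring
      rw [e] at this
      exact this)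
  rw [U_shift, abs_of_nonneg (norm_nonneg z)] at h
  have h1 : KL L z = (L : ℂ)⁻¹ * ∑ q : ZMod L, U ‖z‖ (2 * Real.pi * q.val / L + Complex.arg z) := by
    unfold KL
    simp only [KL_term]
  have h2 : WJ ‖z‖ = ((2 * Real.pi : ℝ) : ℂ)⁻¹ * ∫ t in (0 : ℝ)..(2 * Real.pi), U ‖z‖ t := rfl
  rw [← h1, ← h2] at h
  have h3 : ‖KL L z‖ ≤ ‖WJ ‖z‖‖ + ‖KL L z - WJ ‖z‖‖ := by
    have : KL L z = WJ ‖z‖ + (KL L z - WJ ‖z‖) := by ring
    conv_lhs => rw [this]
    exact norm_add_le _ _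
  have h4 : 2 * Real.pi * (2 * ‖z‖) / L = 4 * Real.pi * ‖z‖ / L := by ring
  rw [h4] at h
  linarith

/-- uniform decay of the Bessel function -/
lemma decay (hW : S_WJ) : ∃ c : ℝ, 0 < c ∧ ∀ s : ℝ, 0 ≤ s → ‖WJ s‖ ≤ Real.exp (-(c * min (s ^ 2) 1)) := by
  obtain ⟨q, hq0, hq1, h1, h2⟩ := hW
  have hlog : Real.log q < 0 := Real.log_neg hq0 hq1
  refine ⟨min (1 / 2) (-Real.log q), lt_min (by norm_num) (by linarith), ?_⟩
  intro s hs
  rcases le_total s 1 with h | h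
  · refine ((h1 s (by rw [abs_of_nonneg hs]; exact h)).2).trans ?_
    apply Real.exp_le_exp.2
    have h3 : s ^ 2 ≤ 1 := by nlinarith
    rw [min_eq_left h3]
    have h4 : min (1 / 2) (-Real.log q) * s ^ 2 ≤ 1 / 2 * s ^ 2 :=
      mul_le_mul_of_nonneg_right (min_le_left _ _) (sq_nonneg s)
    linarith
  · refine (h2 s (by rw [abs_of_nonneg hs]; exact h)).trans ?_
    have h3 : 1 ≤ s ^ 2 := by nlinarith
    rw [min_eq_right h3, mul_one]
    calc q = Real.exp (Real.log q) := (Real.exp_log hq0).symm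
      _ ≤ _ := by
        apply Real.exp_le_exp.2
        have := min_le_right (1 / 2) (-Real.log q)
        linarith

/-! ### Products -/

lemma pow_diff (w b : ℝ) (hw : 0 ≤ w) (hwb : w ≤ b) (hb : b ≤ 1) (m : ℕ) : b ^ m ≤ w ^ m + m * (b - w) := by
  induction m with
  | zero => simp
  | succ m ih =>
    have h1 : w ^ m ≤ 1 := pow_le_one₀ hw (hwb.trans hb)
    have h2 : 0 ≤ w ^ m := pow_nonneg hw m
    have h3 : 0 ≤ b ^ m := pow_nonneg (hw.trans hwb) m
    rw [pow_succ, pow_succ]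
    push_cast
    have h4 : 0 ≤ (m : ℝ) * (b - w) := mul_nonneg (Nat.cast_nonneg _) (by linarith)
    have h5 : b ^ m * b ≤ (w ^ m + m * (b - w)) * b := mul_le_mul_of_nonneg_right ih (hw.trans hwb)
    have h6 : (m : ℝ) * (b - w) * b ≤ m * (b - w) := mul_le_of_le_one_right h4 hb
    have h7 : w ^ m * (b - w) ≤ 1 * (b - w) := mul_le_mul_of_nonneg_right h1 (by linarith)
    nlinarith

lemma prod_bd {d L : ℕ} [NeZero L] (c : ℝ) (hc : 0 < c)
    (hW : ∀ s : ℝ, 0 ≤ s → ‖WJ s‖ ≤ Real.exp (-(c * min (s ^ 2) 1))) (z : Fin d → ℂ)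
    (S : Finset (Fin d)) (r Z : ℝ) (hr : 0 ≤ r) (h1 : ∀ i ∈ S, r ≤ ‖z i‖ ^ 2) (h2 : ∀ i, ‖z i‖ ≤ Z)
    (hZ : 0 ≤ Z) :
    ∏ i, ‖KL L (z i)‖ ≤ Real.exp (-(c * S.card * min r 1)) + d * (4 * Real.pi * Z / L) := by
  classical
  have hLR : (0 : ℝ) < L := by exact_mod_cast Nat.pos_of_ne_zero (NeZero.ne L)
  have hpi := Real.pi_pos
  set w := Real.exp (-(c * min r 1)) with hw
  set ε := 4 * Real.pi * Z / L with hε
  have hε0 : 0 ≤ ε := by positivity
  have hw0 : 0 ≤ w := (Real.exp_pos _).le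
  have hw1 : w ≤ 1 := by
    rw [hw, Real.exp_le_one_iff]
    have : 0 ≤ min r 1 := le_min hr zero_le_one
    nlinarith [mul_nonneg hc.le this]
  set b := min 1 (w + ε) with hb
  have hwb : w ≤ b := le_min hw1 (by linarith)
  have hb1 : b ≤ 1 := min_le_left _ _
  have h3 : ∏ i, ‖KL L (z i)‖ ≤ ∏ i ∈ S, ‖KL L (z i)‖ := by
    rw [← Finset.prod_mul_prod_compl S]
    apply mul_le_of_le_one_right (Finset.prod_nonneg fun _ _ => norm_nonneg _)
    exact Finset.prod_le_one (fun _ _ => norm_nonneg _) (fun _ _ => KL_le_one _ _)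
  have h4 : ∏ i ∈ S, ‖KL L (z i)‖ ≤ ∏ _i ∈ S, b := by
    apply Finset.prod_le_prod (fun _ _ => norm_nonneg _)
    intro i hi
    apply le_min (KL_le_one _ _)
    refine (KL_bd L (z i)).trans ?_
    have h5 : ‖WJ ‖z i‖‖ ≤ w := by
      refine (hW _ (norm_nonneg _)).trans ?_
      rw [hw]
      apply Real.exp_le_exp.2
      have h6 : min r 1 ≤ min (‖z i‖ ^ 2) 1 := min_le_min_right _ (h1 i hi)
      nlinarith
    have h6 : 4 * Real.pi * ‖z i‖ / L ≤ ε := by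
      rw [hε]
      apply div_le_div_of_nonneg_right _ hLR.le
      exact mul_le_mul_of_nonneg_left (h2 i) (by positivity)
    linarith
  rw [Finset.prod_const] at h4
  have h5 := pow_diff w b hw0 hwb hb1 S.card
  have h6 : w ^ S.card = Real.exp (-(c * S.card * min r 1)) := by
    rw [hw, ← Real.exp_nat_mul]
    congr 1
    ring
  have h7 : (S.card : ℝ) * (b - w) ≤ d * ε := by
    have h8 : b - w ≤ ε := by
      have : b ≤ w + ε := min_le_right _ _
      linarith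
    have h9 : (S.card : ℝ) ≤ d := by
      have : S.card ≤ d := by
        have := Finset.card_le_univ S
        rwa [Fintype.card_fin] at this
      exact_mod_cast this
    exact mul_le_mul h9 h8 (by linarith) (Nat.cast_nonneg _)
  rw [← h6]
  linarith

/-- the mean of the exponential of two shells -/
lemma mean_exp {d L : ℕ} [NeZero L] (x y : ℝ) (P : T d L) :
    (NN d L : ℂ)⁻¹ * ∑ k : T d L, Complex.exp (Complex.I * ((x * adj k + y * adj (k + P) : ℝ) : ℂ)) =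
      ∏ i, KL L ((x : ℂ) + y * ZMod.stdAddChar (P i)) := by
  have h1 : ∀ k : T d L, Complex.exp (Complex.I * ((x * adj k + y * adj (k + P) : ℝ) : ℂ)) =
      ∏ i, Complex.exp (Complex.I *
        ((2 * ((((x : ℂ) + y * ZMod.stdAddChar (P i)) * ZMod.stdAddChar (k i)).re) : ℝ) : ℂ)) := by
    intro k
    rw [← Complex.exp_sum, ← Finset.mul_sum]
    congr 2
    rw [← Complex.ofReal_sum]
    congr 1
    unfold adj
    rw [Finset.mul_sum, Finset.mul_sum, ← Finset.sum_add_distrib]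
    apply Finset.sum_congr rfl
    intro i _
    have h2 : (ZMod.stdAddChar ((k + P) i) : ℂ) = ZMod.stdAddChar (P i) * ZMod.stdAddChar (k i) := by
      rw [Pi.add_apply, AddChar.map_add_eq_mul, mul_comm]
    rw [h2]
    have h3 : ((x : ℂ) + y * ZMod.stdAddChar (P i)) * ZMod.stdAddChar (k i) =
        (x : ℂ) * ZMod.stdAddChar (k i) + (y : ℂ) * (ZMod.stdAddChar (P i) * ZMod.stdAddChar (k i)) := by
      ring
    rw [h3, Complex.add_re, Complex.re_ofReal_mul, Complex.re_ofReal_mul]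
    ring
  simp only [h1]
  rw [prod_avg (fun i q => Complex.exp (Complex.I *
        ((2 * ((((x : ℂ) + y * ZMod.stdAddChar (P i)) * ZMod.stdAddChar q).re) : ℝ) : ℂ)))]
  rfl



lemma normsq_z {L : ℕ} [NeZero L] (x y : ℝ) (p : ZMod L) :
    ‖(x : ℂ) + y * ZMod.stdAddChar p‖ ^ 2 = x ^ 2 + y ^ 2 + 2 * x * y * cr p := by
  have h1 := char_norm p
  have h2 : (ZMod.stdAddChar p : ℂ).re ^ 2 + (ZMod.stdAddChar p : ℂ).im ^ 2 = 1 := by
    have h3 : ‖(ZMod.stdAddChar p : ℂ)‖ ^ 2 = 1 := by rw [h1]; norm_num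
    rw [← Complex.normSq_eq_norm_sq, Complex.normSq_apply] at h3
    nlinarith
  unfold cr
  rw [← Complex.normSq_eq_norm_sq, Complex.normSq_apply]
  simp only [Complex.add_re, Complex.add_im, Complex.ofReal_re, Complex.ofReal_im,
    Complex.re_ofReal_mul, Complex.im_ofReal_mul, zero_add]
  have : (x + y * (ZMod.stdAddChar p : ℂ).re) * (x + y * (ZMod.stdAddChar p : ℂ).re) +
      y * (ZMod.stdAddChar p : ℂ).im * (y * (ZMod.stdAddChar p : ℂ).im) =
      x ^ 2 + 2 * x * y * (ZMod.stdAddChar p : ℂ).re +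
        y ^ 2 * ((ZMod.stdAddChar p : ℂ).re ^ 2 + (ZMod.stdAddChar p : ℂ).im ^ 2) := by ring
  rw [this, h2]
  ring

lemma cr_abs_le {L : ℕ} [NeZero L] (p : ZMod L) : |cr p| ≤ 1 := by
  unfold cr
  have := Complex.abs_re_le_norm (ZMod.stdAddChar p : ℂ)
  rwa [char_norm] at this

open Classical in
/-- the good coordinates -/
lemma good_card {d L : ℕ} [NeZero L] (P : T d L) (hP : ¬ Lo P) :
    (d : ℝ) / 8 ≤ ((Finset.univ.filter (fun i : Fin d => cr (P i) ^ 2 ≤ 7 / 8)).card : ℝ) := by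
  unfold Lo at hP
  push Not at hP
  set S := Finset.univ.filter (fun i : Fin d => cr (P i) ^ 2 ≤ 7 / 8) with hS
  have h1 : ((Finset.univ.filter (fun i : Fin d => ¬ cr (P i) ^ 2 ≤ 7 / 8)).card : ℝ) * (7 / 8) ≤
      ∑ i, cr (P i) ^ 2 := by
    calc ((Finset.univ.filter (fun i : Fin d => ¬ cr (P i) ^ 2 ≤ 7 / 8)).card : ℝ) * (7 / 8) =
        ∑ _i ∈ Finset.univ.filter (fun i : Fin d => ¬ cr (P i) ^ 2 ≤ 7 / 8), (7 / 8 : ℝ) := by
          rw [Finset.sum_const, nsmul_eq_mul]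
      _ ≤ ∑ i ∈ Finset.univ.filter (fun i : Fin d => ¬ cr (P i) ^ 2 ≤ 7 / 8), cr (P i) ^ 2 := by
          apply Finset.sum_le_sum
          intro i hi
          rw [Finset.mem_filter, not_le] at hi
          exact hi.2.le
      _ ≤ _ := Finset.sum_le_sum_of_subset_of_nonneg (Finset.filter_subset _ _)
          (fun _ _ _ => sq_nonneg _)
  have h2 : S.card + (Finset.univ.filter (fun i : Fin d => ¬ cr (P i) ^ 2 ≤ 7 / 8)).card = d := by
    have := Finset.card_filter_add_card_filter_not (s := (Finset.univ : Finset (Fin d)))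
      (fun i : Fin d => cr (P i) ^ 2 ≤ 7 / 8)
    rw [Finset.card_univ, Fintype.card_fin] at this
    exact this
  have h3 : (S.card : ℝ) + ((Finset.univ.filter (fun i : Fin d => ¬ cr (P i) ^ 2 ≤ 7 / 8)).card : ℝ) = d := by
    exact_mod_cast h2
  have h4 : (0 : ℝ) ≤ d := Nat.cast_nonneg d
  nlinarith

/-- the two exponentials -/
lemma exp_min (a b : ℝ) : Real.exp (-min a b) ≤ Real.exp (-a) + Real.exp (-b) := by
  rcases le_total a b with h | h
  · rw [min_eq_left h]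
    linarith [Real.exp_pos (-b)]
  · rw [min_eq_right h]
    linarith [Real.exp_pos (-a)]

/-- the error -/
noncomputable def er (c : ℝ) (d L : ℕ) : ℝ :=
  Real.exp (-(c * d / 8)) + d * (4 * Real.pi * (4 * Real.sqrt d) / L)

lemma er_nonneg (c : ℝ) (d L : ℕ) : 0 ≤ er c d L := by
  unfold er
  have := Real.pi_pos
  positivity

lemma er_le (c : ℝ) (hc : 0 < c) (d L : ℕ) (hd : 2 ≤ d) (hL : (d : ℝ) ^ 6 ≤ L) :
    4 * (d : ℝ) ^ 2 * er c d L ≤ 512 / c ^ 2 + 256 := by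
  have hd0 : (2 : ℝ) ≤ d := by exact_mod_cast hd
  have hL0 : (0 : ℝ) < L := lt_of_lt_of_le (by positivity) hL
  unfold er
  rw [mul_add]
  apply add_le_add
  · have hy : 0 < c * d / 8 := by positivity
    have h1 : (c * d / 8) ^ 2 / 2 ≤ Real.exp (c * d / 8) := by
      have := Real.quadratic_le_exp_of_nonneg hy.le
      linarith
    have h2 : Real.exp (-(c * d / 8)) ≤ 2 / (c * d / 8) ^ 2 := by
      rw [Real.exp_neg, inv_le_comm₀ (Real.exp_pos _) (by positivity), inv_div]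
      exact h1
    calc 4 * (d : ℝ) ^ 2 * Real.exp (-(c * d / 8)) ≤ 4 * (d : ℝ) ^ 2 * (2 / (c * d / 8) ^ 2) := by gcongr
      _ = 512 / c ^ 2 := by
        field_simp
        norm_num
  · have h1 : Real.sqrt d ≤ d := by
      rw [Real.sqrt_le_left (by linarith)]
      nlinarith
    have h2 : 4 * Real.pi * (4 * Real.sqrt d) / L ≤ 4 * Real.pi * (4 * d) / (d : ℝ) ^ 6 := by
      have := Real.pi_pos
      gcongr
    have hpi : Real.pi ≤ 4 := by linarith [Real.pi_lt_d2]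
    have hd4 : (1 : ℝ) ≤ (d : ℝ) ^ 2 := by nlinarith
    calc 4 * (d : ℝ) ^ 2 * (d * (4 * Real.pi * (4 * Real.sqrt d) / L)) ≤
        4 * (d : ℝ) ^ 2 * (d * (4 * Real.pi * (4 * d) / (d : ℝ) ^ 6)) := by gcongr
      _ = 64 * Real.pi / (d : ℝ) ^ 2 := by
        field_simp
        norm_num
      _ ≤ 64 * Real.pi / 1 := by
        have := Real.pi_pos
        gcongr
      _ ≤ 256 := by
        rw [div_one]
        linarith

/-- the decay of the Fourier coefficients, two shells -/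
lemma two_shell {d L : ℕ} [NeZero L] (hd : 2 ≤ d) (c : ℝ) (hc : 0 < c)
    (hW : ∀ s : ℝ, 0 ≤ s → ‖WJ s‖ ≤ Real.exp (-(c * min (s ^ 2) 1))) (P : T d L)
    (hP : ¬ Lo P) (u v : ℝ) (hu : |u| ≤ 2 * d) (hv : |v| ≤ 2 * d) :
    ‖(NN d L : ℂ)⁻¹ * ∑ k : T d L, Complex.exp (Complex.I *
        (((u * (Real.sqrt d)⁻¹) * adj k + (v * (Real.sqrt d)⁻¹) * adj (k + P) : ℝ) : ℂ))‖ ≤
      Real.exp (-(c / 128 * u ^ 2)) * Real.exp (-(c / 128 * v ^ 2)) + er c d L := by
  classical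
  have hd0 : (2 : ℝ) ≤ d := by exact_mod_cast hd
  have hsd : 0 < Real.sqrt d := Real.sqrt_pos.2 (by linarith)
  have hsd2 : Real.sqrt d ^ 2 = d := Real.sq_sqrt (by linarith)
  have hinv2 : (Real.sqrt d)⁻¹ ^ 2 = (d : ℝ)⁻¹ := by rw [inv_pow, hsd2]
  set S := Finset.univ.filter (fun i : Fin d => cr (P i) ^ 2 ≤ 7 / 8) with hS
  have hScard := good_card P hP
  rw [mean_exp, norm_prod]
  have hZ : ∀ t : ℝ, |t| ≤ 2 * d → |t * (Real.sqrt d)⁻¹| ≤ 2 * Real.sqrt d := by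
    intro t ht
    rw [abs_mul, abs_of_pos (inv_pos.2 hsd), ← div_eq_mul_inv, div_le_iff₀ hsd]
    nlinarith
  have hb := prod_bd (L := L) c hc hW
    (fun i => ((u * (Real.sqrt d)⁻¹ : ℝ) : ℂ) + ((v * (Real.sqrt d)⁻¹ : ℝ) : ℂ) * ZMod.stdAddChar (P i)) S
    ((u ^ 2 + v ^ 2) / (16 * d)) (4 * Real.sqrt d) (by positivity) ?_ ?_ (by positivity)
  · refine hb.trans ?_
    unfold er
    have h1 : Real.exp (-(c * S.card * min ((u ^ 2 + v ^ 2) / (16 * d)) 1)) ≤
        Real.exp (-min (c / 128 * (u ^ 2 + v ^ 2)) (c * d / 8)) := by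
      apply Real.exp_le_exp.2
      apply neg_le_neg
      have h2 : 0 ≤ min ((u ^ 2 + v ^ 2) / (16 * d)) (1 : ℝ) := le_min (by positivity) zero_le_one
      have h3 : c * (d / 8) * min ((u ^ 2 + v ^ 2) / (16 * d)) 1 ≤
          c * S.card * min ((u ^ 2 + v ^ 2) / (16 * d)) 1 := by
        apply mul_le_mul_of_nonneg_right _ h2
        exact mul_le_mul_of_nonneg_left hScard hc.le
      refine le_trans (le_of_eq ?_) h3
      have h4 : 0 ≤ c * ((d : ℝ) / 8) := by positivity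
      rw [mul_min_of_nonneg _ _ h4]
      congr 1
      · field_simp
        ring
      · ring
    have h2 := exp_min (c / 128 * (u ^ 2 + v ^ 2)) (c * d / 8)
    have h3 : Real.exp (-(c / 128 * (u ^ 2 + v ^ 2))) =
        Real.exp (-(c / 128 * u ^ 2)) * Real.exp (-(c / 128 * v ^ 2)) := by
      rw [← Real.exp_add]
      congr 1
      ring
    rw [h3] at h2
    linarith
  · intro i hi
    rw [hS, Finset.mem_filter] at hi
    rw [normsq_z]
    have h1 : |cr (P i)| ≤ 15 / 16 := by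
      apply abs_le_of_sq_le_sq _ (by norm_num)
      nlinarith [hi.2]
    have h2 : |2 * (u * (Real.sqrt d)⁻¹) * (v * (Real.sqrt d)⁻¹) * cr (P i)| ≤
        15 / 16 * ((u ^ 2 + v ^ 2) / d) := by
      have e1 : 2 * (u * (Real.sqrt d)⁻¹) * (v * (Real.sqrt d)⁻¹) * cr (P i) =
          (2 * (u * v)) * ((Real.sqrt d)⁻¹ ^ 2) * cr (P i) := by ring
      rw [e1, hinv2, abs_mul, abs_mul, abs_of_pos (inv_pos.2 (by linarith : (0 : ℝ) < d))]
      have h3 : |2 * (u * v)| ≤ u ^ 2 + v ^ 2 := by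
        rw [abs_le]
        constructor <;> nlinarith [sq_nonneg (u - v), sq_nonneg (u + v)]
      calc |2 * (u * v)| * (d : ℝ)⁻¹ * |cr (P i)| ≤ (u ^ 2 + v ^ 2) * (d : ℝ)⁻¹ * (15 / 16) := by
            gcongr
        _ = _ := by ring
    have h3 := neg_abs_le (2 * (u * (Real.sqrt d)⁻¹) * (v * (Real.sqrt d)⁻¹) * cr (P i))
    have h4 : (u * (Real.sqrt d)⁻¹) ^ 2 + (v * (Real.sqrt d)⁻¹) ^ 2 = (u ^ 2 + v ^ 2) / d := by
      rw [mul_pow, mul_pow, hinv2]
      ring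
    rw [h4]
    have h5 : (u ^ 2 + v ^ 2) / (16 * d) = 1 / 16 * ((u ^ 2 + v ^ 2) / d) := by
      field_simp
    rw [h5]
    linarith
  · intro i
    refine (norm_add_le _ _).trans ?_
    rw [norm_mul, char_norm, mul_one, Complex.norm_real, Complex.norm_real, Real.norm_eq_abs, Real.norm_eq_abs]
    have h1 := hZ u hu
    have h2 := hZ v hv
    linarith

/-- the decay of the Fourier coefficients, one shell -/
lemma one_shell {d L : ℕ} [NeZero L] (hd : 2 ≤ d) (c : ℝ) (hc : 0 < c)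
    (hW : ∀ s : ℝ, 0 ≤ s → ‖WJ s‖ ≤ Real.exp (-(c * min (s ^ 2) 1))) (P : T d L)
    (u : ℝ) (hu : |u| ≤ 2 * d) :
    ‖(NN d L : ℂ)⁻¹ * ∑ k : T d L, Complex.exp (Complex.I *
        (((u * (Real.sqrt d)⁻¹) * adj k + (0 * (Real.sqrt d)⁻¹) * adj (k + P) : ℝ) : ℂ))‖ ≤
      Real.exp (-(c / 128 * u ^ 2)) + er c d L := by
  classical
  have hd0 : (2 : ℝ) ≤ d := by exact_mod_cast hd
  have hsd : 0 < Real.sqrt d := Real.sqrt_pos.2 (by linarith)
  have hsd2 : Real.sqrt d ^ 2 = d := Real.sq_sqrt (by linarith)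
  have hinv2 : (Real.sqrt d)⁻¹ ^ 2 = (d : ℝ)⁻¹ := by rw [inv_pow, hsd2]
  rw [mean_exp, norm_prod]
  have hb := prod_bd (L := L) c hc hW
    (fun i => ((u * (Real.sqrt d)⁻¹ : ℝ) : ℂ) + ((0 * (Real.sqrt d)⁻¹ : ℝ) : ℂ) * ZMod.stdAddChar (P i))
    Finset.univ (u ^ 2 / (16 * d)) (4 * Real.sqrt d) (by positivity) ?_ ?_ (by positivity)
  · refine hb.trans ?_
    unfold er
    have h1 : Real.exp (-(c * (Finset.univ : Finset (Fin d)).card * min (u ^ 2 / (16 * d)) 1)) ≤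
        Real.exp (-min (c / 128 * u ^ 2) (c * d / 8)) := by
      apply Real.exp_le_exp.2
      apply neg_le_neg
      rw [Finset.card_univ, Fintype.card_fin]
      have h2 : 0 ≤ min (u ^ 2 / (16 * d)) (1 : ℝ) := le_min (by positivity) zero_le_one
      have h3 : c * (d / 8) * min (u ^ 2 / (16 * d)) 1 ≤ c * d * min (u ^ 2 / (16 * d)) 1 := by
        apply mul_le_mul_of_nonneg_right _ h2
        nlinarith [mul_pos hc (by linarith : (0 : ℝ) < d)]
      refine le_trans (le_of_eq ?_) h3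
      have h4 : 0 ≤ c * ((d : ℝ) / 8) := by positivity
      rw [mul_min_of_nonneg _ _ h4]
      congr 1
      · field_simp
        ring
      · ring
    have h2 := exp_min (c / 128 * u ^ 2) (c * d / 8)
    linarith
  · intro i _
    rw [normsq_z]
    have h4 : (u * (Real.sqrt d)⁻¹) ^ 2 = u ^ 2 / d := by
      rw [mul_pow, hinv2]
      ring
    rw [h4]
    have h5 : u ^ 2 / (16 * d) = 1 / 16 * (u ^ 2 / d) := by
      field_simp
    have h6 : 0 ≤ u ^ 2 / (d : ℝ) := by positivity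
    rw [h5]
    nlinarith
  · intro i
    have h1 : |u * (Real.sqrt d)⁻¹| ≤ 2 * Real.sqrt d := by
      rw [abs_mul, abs_of_pos (inv_pos.2 hsd), ← div_eq_mul_inv, div_le_iff₀ hsd]
      nlinarith
    have e : (((u * (Real.sqrt d)⁻¹ : ℝ) : ℂ) + ((0 * (Real.sqrt d)⁻¹ : ℝ) : ℂ) * ZMod.stdAddChar (P i)) =
        ((u * (Real.sqrt d)⁻¹ : ℝ) : ℂ) := by
      push_cast
      ring
    simp only [e]
    rw [Complex.norm_real, Real.norm_eq_abs]
    linarith

/-- the pointwise bound -/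
lemma J_inv_le {d L : ℕ} [NeZero L] (hd : 2 ≤ d) (K : ℕ) (hK : (d : ℝ) ≤ 2 ^ K) (E ρ : ℝ)
    (hρ : (Real.sqrt d)⁻¹ ≤ ρ) (k : T d L) :
    (J E ρ k)⁻¹ ≤ 8 * (Real.sqrt d)⁻¹ *
      ∑ n ∈ Finset.range (K + 1), (2 : ℝ) ^ n * Fe (2 ^ n) ((Real.sqrt d)⁻¹ * (adj k - E)) := by
  have hd0 : (2 : ℝ) ≤ d := by exact_mod_cast hd
  have hsd : 0 < Real.sqrt d := Real.sqrt_pos.2 (by linarith)
  have hsd2 : Real.sqrt d ^ 2 = d := Real.sq_sqrt (by linarith)
  have hinv2 : (Real.sqrt d)⁻¹ ^ 2 = (d : ℝ)⁻¹ := by rw [inv_pow, hsd2]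
  have h1 := inv_sqrt_le K (d : ℝ)⁻¹ (by positivity) (by rw [inv_inv]; exact hK)
    ((Real.sqrt d)⁻¹ * (adj k - E))
  have h2 : Real.sqrt (((Real.sqrt d)⁻¹ * (adj k - E)) ^ 2 + (d : ℝ)⁻¹ ^ 2) =
      (Real.sqrt d)⁻¹ * Real.sqrt ((adj k - E) ^ 2 + (Real.sqrt d)⁻¹ ^ 2) := by
    have e1 : ((Real.sqrt d)⁻¹ * (adj k - E)) ^ 2 + (d : ℝ)⁻¹ ^ 2 =
        (Real.sqrt d)⁻¹ ^ 2 * ((adj k - E) ^ 2 + (Real.sqrt d)⁻¹ ^ 2) := by
      rw [mul_add, mul_pow, hinv2]
      ring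
    rw [e1, Real.sqrt_mul (sq_nonneg _), Real.sqrt_sq (by positivity)]
  rw [h2, mul_inv, inv_inv] at h1
  have h3 : (J E ρ k)⁻¹ ≤ (Real.sqrt ((adj k - E) ^ 2 + (Real.sqrt d)⁻¹ ^ 2))⁻¹ := by
    unfold J
    apply inv_anti₀
    · apply Real.sqrt_pos.2
      positivity
    · apply Real.sqrt_le_sqrt
      have : (Real.sqrt d)⁻¹ ^ 2 ≤ ρ ^ 2 := pow_le_pow_left₀ (by positivity) hρ 2
      linarith
  refine h3.trans ?_
  calc (Real.sqrt ((adj k - E) ^ 2 + (Real.sqrt d)⁻¹ ^ 2))⁻¹ =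
      (Real.sqrt d)⁻¹ * (Real.sqrt d * (Real.sqrt ((adj k - E) ^ 2 + (Real.sqrt d)⁻¹ ^ 2))⁻¹) := by
        rw [← mul_assoc, inv_mul_cancel₀ hsd.ne', one_mul]
    _ ≤ (Real.sqrt d)⁻¹ * (8 * ∑ n ∈ Finset.range (K + 1),
        (2 : ℝ) ^ n * Fe (2 ^ n) ((Real.sqrt d)⁻¹ * (adj k - E))) := by gcongr
    _ = _ := by ring

/-- Piece FEJ. -/
theorem main (hWJ : S_WJ) : S_FEJ := by
  obtain ⟨c, hc, hW⟩ := decay hWJ
  set κ : ℝ := c / 128 with hκ
  have hκ0 : 0 < κ := by positivity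
  set A : ℝ := (1 + 16 / κ) ^ 2 + (512 / c ^ 2 + 256) with hA
  have hA0 : 0 < A := by positivity
  refine ⟨1600 * A, by positivity, 2, ?_⟩
  intro d L _ hd hL E ρ hρ
  have hd0 : (2 : ℝ) ≤ d := by exact_mod_cast hd
  have hNN : (0 : ℝ) < NN d L := NN_pos
  have hsd : 0 < Real.sqrt d := Real.sqrt_pos.2 (by linarith)
  have hsd2 : Real.sqrt d ^ 2 = d := Real.sq_sqrt (by linarith)
  have hinv2 : (Real.sqrt d)⁻¹ ^ 2 = (d : ℝ)⁻¹ := by rw [inv_pow, hsd2]
  obtain ⟨n₀, hn1, hn2⟩ := exists_nat_pow_near (show (1 : ℝ) ≤ d by linarith) (by norm_num : (1 : ℝ) < 2)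
  set K := n₀ + 1 with hKdef
  have hK1 : (d : ℝ) ≤ 2 ^ K := hn2.le
  have hK2 : (2 : ℝ) ^ K ≤ 2 * d := by
    rw [hKdef, pow_succ]
    linarith
  have hlogd : Real.log 2 ≤ Real.log d := Real.log_le_log (by norm_num) hd0
  have hlog2 : (0.69 : ℝ) ≤ Real.log 2 := by
    have := Real.log_two_gt_d9
    linarith
  have hKlog : (K : ℝ) + 1 ≤ 5 * Real.log d := by
    have h1 : (n₀ : ℝ) * Real.log 2 ≤ Real.log d := by
      rw [← Real.log_pow]
      exact Real.log_le_log (by positivity) hn1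
    have h2 : (K : ℝ) = n₀ + 1 := by rw [hKdef]; push_cast; ring
    rw [h2]
    have h3 : (0 : ℝ) ≤ n₀ := Nat.cast_nonneg _
    nlinarith
  have hpow : ∀ n ∈ Finset.range (K + 1), (1 : ℝ) ≤ 2 ^ n ∧ (2 : ℝ) ^ n ≤ 2 * d := by
    intro n hn
    rw [Finset.mem_range] at hn
    exact ⟨one_le_pow₀ (by norm_num), (pow_le_pow_right₀ (by norm_num) (by omega)).trans hK2⟩
  have her := er_le c hc d L hd hL
  have her0 := er_nonneg c d L
  have hbig : ∀ i j n : ℕ, (2 : ℝ) ^ n ≤ 2 * d → i < 2 ^ n → j < 2 ^ n → |(i : ℝ) - j| ≤ 2 * d := by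
    intro i j n hn hi hj
    have h1 : (i : ℝ) ≤ 2 ^ n := by exact_mod_cast hi.le
    have h2 : (j : ℝ) ≤ 2 ^ n := by exact_mod_cast hj.le
    have h3 : (0 : ℝ) ≤ i := Nat.cast_nonneg _
    have h4 : (0 : ℝ) ≤ j := Nat.cast_nonneg _
    rw [abs_le]
    constructor <;> linarith
  -- one shell
  have hone : ∀ n ∈ Finset.range (K + 1),
      (2 : ℝ) ^ n * ((NN d L)⁻¹ * ∑ k : T d L, Fe (2 ^ n) ((Real.sqrt d)⁻¹ * (adj k - E))) ≤ A := by
    intro n hn
    obtain ⟨hp1, hp2⟩ := hpow n hn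
    have h1 := fe_fe (d := d) (L := L) (2 ^ n) 1 Nat.one_le_two_pow le_rfl κ (er c d L)
      (Real.sqrt d)⁻¹ E hκ0 0 ?_
    · simp only [Fe_one, mul_one, Nat.cast_one] at h1
      have h2 : (2 : ℝ) ^ n * ((1 + 16 / κ) ^ 2 / ((2 ^ n : ℕ) : ℝ) + er c d L) ≤ A := by
        push_cast
        rw [mul_add, mul_div_cancel₀ _ (by positivity : (2 : ℝ) ^ n ≠ 0)]
        have h3 : (2 : ℝ) ^ n * er c d L ≤ 4 * (d : ℝ) ^ 2 * er c d L := by
          apply mul_le_mul_of_nonneg_right _ her0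
          nlinarith
        rw [hA]
        linarith
      refine le_trans ?_ h2
      exact mul_le_mul_of_nonneg_left h1 (by positivity)
    · intro i j i' j' hi hj hi' hj'
      have e1 : (i' : ℝ) - j' = 0 := by
        have a1 : i' = 0 := by omega
        have a2 : j' = 0 := by omega
        rw [a1, a2]
        simp
      rw [e1]
      have h2 := one_shell (L := L) hd c hc hW 0 ((i : ℝ) - j) (hbig i j n hp2 hi hj)
      rw [hκ]
      norm_num at h2 ⊢
      exact h2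
  constructor
  · unfold gz
    have h1 : (NN d L)⁻¹ * ∑ k : T d L, (J E ρ k)⁻¹ ≤ (NN d L)⁻¹ * ∑ k : T d L, (8 * (Real.sqrt d)⁻¹ *
      ∑ n ∈ Finset.range (K + 1), (2 : ℝ) ^ n * Fe (2 ^ n) ((Real.sqrt d)⁻¹ * (adj k - E))) := by
      apply mul_le_mul_of_nonneg_left _ (inv_nonneg.2 hNN.le)
      exact Finset.sum_le_sum fun k _ => J_inv_le hd K hK1 E ρ hρ k
    refine h1.trans ?_
    have h2 : (NN d L)⁻¹ * ∑ k : T d L, (8 * (Real.sqrt d)⁻¹ *
      ∑ n ∈ Finset.range (K + 1), (2 : ℝ) ^ n * Fe (2 ^ n) ((Real.sqrt d)⁻¹ * (adj k - E))) =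
        8 * (Real.sqrt d)⁻¹ * ∑ n ∈ Finset.range (K + 1),
          (2 : ℝ) ^ n * ((NN d L)⁻¹ * ∑ k : T d L, Fe (2 ^ n) ((Real.sqrt d)⁻¹ * (adj k - E))) := by
      rw [← Finset.mul_sum, Finset.sum_comm]
      rw [mul_left_comm]
      congr 1
      rw [Finset.mul_sum]
      apply Finset.sum_congr rfl
      intro n _
      rw [← Finset.mul_sum]
      ring
    rw [h2]
    have h3 : ∑ n ∈ Finset.range (K + 1),
          (2 : ℝ) ^ n * ((NN d L)⁻¹ * ∑ k : T d L, Fe (2 ^ n) ((Real.sqrt d)⁻¹ * (adj k - E))) ≤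
        ((K : ℝ) + 1) * A := by
      refine (Finset.sum_le_sum hone).trans (le_of_eq ?_)
      rw [Finset.sum_const, Finset.card_range, nsmul_eq_mul]
      push_cast
      ring
    have h4 : ((K : ℝ) + 1) * A ≤ 5 * Real.log d * A := mul_le_mul_of_nonneg_right hKlog hA0.le
    have hlogpos : 0 < Real.log d := by linarith
    calc 8 * (Real.sqrt d)⁻¹ * ∑ n ∈ Finset.range (K + 1),
          (2 : ℝ) ^ n * ((NN d L)⁻¹ * ∑ k : T d L, Fe (2 ^ n) ((Real.sqrt d)⁻¹ * (adj k - E))) ≤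
        8 * (Real.sqrt d)⁻¹ * (5 * Real.log d * A) := by
          apply mul_le_mul_of_nonneg_left (h3.trans h4) (by positivity)
      _ = 40 * A * Real.log d / Real.sqrt d := by
          rw [div_eq_mul_inv]
          ring
      _ ≤ 1600 * A * Real.log d / Real.sqrt d := by
          apply div_le_div_of_nonneg_right _ hsd.le
          nlinarith [mul_pos hA0 hlogpos]
  · intro P hP
    -- two shells
    have htwo : ∀ n ∈ Finset.range (K + 1), ∀ n' ∈ Finset.range (K + 1),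
        (2 : ℝ) ^ n * 2 ^ n' * ((NN d L)⁻¹ * ∑ k : T d L, Fe (2 ^ n) ((Real.sqrt d)⁻¹ * (adj k - E)) *
          Fe (2 ^ n') ((Real.sqrt d)⁻¹ * (adj (k + P) - E))) ≤ A := by
      intro n hn n' hn'
      obtain ⟨hp1, hp2⟩ := hpow n hn
      obtain ⟨hp1', hp2'⟩ := hpow n' hn'
      have h1 := fe_fe (d := d) (L := L) (2 ^ n) (2 ^ n') Nat.one_le_two_pow Nat.one_le_two_pow κ
        (er c d L) (Real.sqrt d)⁻¹ E hκ0 P ?_
      · have h2 : (2 : ℝ) ^ n * 2 ^ n' * ((1 + 16 / κ) ^ 2 / (((2 ^ n : ℕ) : ℝ) * ((2 ^ n' : ℕ) : ℝ)) +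
            er c d L) ≤ A := by
          push_cast
          rw [mul_add, mul_div_cancel₀ _ (by positivity : (2 : ℝ) ^ n * 2 ^ n' ≠ 0)]
          have h3 : (2 : ℝ) ^ n * 2 ^ n' * er c d L ≤ 4 * (d : ℝ) ^ 2 * er c d L := by
            apply mul_le_mul_of_nonneg_right _ her0
            nlinarith
          rw [hA]
          linarith
        refine le_trans ?_ h2
        exact mul_le_mul_of_nonneg_left h1 (by positivity)
      · intro i j i' j' hi hj hi' hj'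
        exact two_shell hd c hc hW P hP ((i : ℝ) - j) ((i' : ℝ) - j') (hbig i j n hp2 hi hj)
          (hbig i' j' n' hp2' hi' hj')
    have hpt : ∀ k : T d L, (J E ρ k * J E ρ (k + P))⁻¹ ≤
        64 * (d : ℝ)⁻¹ * ∑ n ∈ Finset.range (K + 1), ∑ n' ∈ Finset.range (K + 1),
          ((2 : ℝ) ^ n * 2 ^ n' * (Fe (2 ^ n) ((Real.sqrt d)⁻¹ * (adj k - E)) *
            Fe (2 ^ n') ((Real.sqrt d)⁻¹ * (adj (k + P) - E)))) := by
      intro k
      have hρ0 : 0 < ρ := lt_of_lt_of_le (inv_pos.2 hsd) hρ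
      rw [mul_inv]
      have h1 := J_inv_le hd K hK1 E ρ hρ k
      have h2 := J_inv_le hd K hK1 E ρ hρ (k + P)
      have h3 : 0 ≤ (J E ρ (k + P))⁻¹ := (inv_pos.2 (J_pos E ρ hρ0 _)).le
      have h4 : 0 ≤ (J E ρ k)⁻¹ := (inv_pos.2 (J_pos E ρ hρ0 _)).le
      refine (mul_le_mul h1 h2 h3 (h4.trans h1)).trans (le_of_eq ?_)
      have e1 : ∀ X Y : ℝ, 8 * (Real.sqrt d)⁻¹ * X * (8 * (Real.sqrt d)⁻¹ * Y) =
          64 * (Real.sqrt d)⁻¹ ^ 2 * (X * Y) := by
        intro X Y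
        ring
      rw [e1, hinv2, Finset.sum_mul_sum]
      congr 1
      refine Finset.sum_congr rfl fun n _ => Finset.sum_congr rfl fun n' _ => ?_
      ring
    have hsum : (NN d L)⁻¹ * ∑ k : T d L, (J E ρ k * J E ρ (k + P))⁻¹ ≤
        64 * (d : ℝ)⁻¹ * ∑ n ∈ Finset.range (K + 1), ∑ n' ∈ Finset.range (K + 1),
          ((2 : ℝ) ^ n * 2 ^ n' * ((NN d L)⁻¹ * ∑ k : T d L,
            Fe (2 ^ n) ((Real.sqrt d)⁻¹ * (adj k - E)) *
            Fe (2 ^ n') ((Real.sqrt d)⁻¹ * (adj (k + P) - E)))) := by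
      refine (mul_le_mul_of_nonneg_left (Finset.sum_le_sum fun k _ => hpt k)
        (inv_nonneg.2 hNN.le)).trans (le_of_eq ?_)
      rw [← Finset.mul_sum, mul_left_comm]
      congr 1
      rw [Finset.sum_comm, Finset.mul_sum]
      refine Finset.sum_congr rfl fun n _ => ?_
      rw [Finset.sum_comm, Finset.mul_sum]
      refine Finset.sum_congr rfl fun n' _ => ?_
      rw [← Finset.mul_sum]
      ring
    have hb : ∑ n ∈ Finset.range (K + 1), ∑ n' ∈ Finset.range (K + 1),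
          ((2 : ℝ) ^ n * 2 ^ n' * ((NN d L)⁻¹ * ∑ k : T d L,
            Fe (2 ^ n) ((Real.sqrt d)⁻¹ * (adj k - E)) *
            Fe (2 ^ n') ((Real.sqrt d)⁻¹ * (adj (k + P) - E)))) ≤ ((K : ℝ) + 1) ^ 2 * A := by
      refine (Finset.sum_le_sum fun n hn => Finset.sum_le_sum fun n' hn' => htwo n hn n' hn').trans
        (le_of_eq ?_)
      rw [Finset.sum_const, Finset.sum_const, Finset.card_range, nsmul_eq_mul, nsmul_eq_mul]
      push_cast
      ring
    have hK0 : (0 : ℝ) ≤ (K : ℝ) + 1 := by positivity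
    have h5 : ((K : ℝ) + 1) ^ 2 * A ≤ 25 * Real.log d ^ 2 * A := by
      apply mul_le_mul_of_nonneg_right _ hA0.le
      calc ((K : ℝ) + 1) ^ 2 ≤ (5 * Real.log d) ^ 2 := pow_le_pow_left₀ hK0 hKlog 2
        _ = _ := by ring
    have h6 : (NN d L)⁻¹ * ∑ k : T d L, (J E ρ k * J E ρ (k + P))⁻¹ ≤
        1600 * A * Real.log d ^ 2 / d := by
      refine hsum.trans ?_
      calc 64 * (d : ℝ)⁻¹ * ∑ n ∈ Finset.range (K + 1), ∑ n' ∈ Finset.range (K + 1),
          ((2 : ℝ) ^ n * 2 ^ n' * ((NN d L)⁻¹ * ∑ k : T d L,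
            Fe (2 ^ n) ((Real.sqrt d)⁻¹ * (adj k - E)) *
            Fe (2 ^ n') ((Real.sqrt d)⁻¹ * (adj (k + P) - E)))) ≤
          64 * (d : ℝ)⁻¹ * (25 * Real.log d ^ 2 * A) :=
            mul_le_mul_of_nonneg_left (hb.trans h5) (by positivity)
        _ = _ := by
            rw [div_eq_mul_inv]
            ring
    calc ∑ k : T d L, (J E ρ k * J E ρ (k + P))⁻¹ =
        ((NN d L)⁻¹ * ∑ k : T d L, (J E ρ k * J E ρ (k + P))⁻¹) * NN d L := by
          field_simp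
      _ ≤ _ := mul_le_mul_of_nonneg_right h6 hNN.le

end Run7.h304.HD
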